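import Mathlib

set_option autoImplicit false

/-!
A nonabelian `p`-group of class two inside the alternating group of degree at least `2 p ^ 2`.
-/

namespace Pool.Agent.CbfAlt

open Equiv Equiv.Perm

/-- Affine unipotent permutations of `(ZMod p)²`. -/
def unip (p : ℕ) (r s t : ZMod p) : Perm (ZMod p × ZMod p) where
  toFun v := (v.1 + r, v.2 + s * v.1 + t)
  invFun v := (v.1 - r, v.2 - s * (v.1 - r) - t)
  left_inv v := by
    ext
    · simp
    · simp only []
      ring
  right_inv v := by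
    ext
    · simp
    · simp only []
      ring

theorem unip_mul (p : ℕ) (r s t r' s' t' : ZMod p) :
    unip p r s t * unip p r' s' t' = unip p (r + r') (s + s') (t + t' + s * r') := by
  ext v
  · simp only [unip, Perm.mul_apply, coe_fn_mk]; ring
  · simp only [unip, Perm.mul_apply, coe_fn_mk]; ring

theorem unip_one (p : ℕ) : unip p 0 0 0 = 1 := by
  ext v
  · simp [unip]
  · simp [unip]

theorem unip_inv (p : ℕ) (r s t : ZMod p) :
    (unip p r s t)⁻¹ = unip p (-r) (-s) (-t + s * r) := by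
  rw [inv_eq_iff_mul_eq_one, unip_mul]
  rw [← unip_one p]
  congr 1 <;> ring

/-- The subgroup of all affine unipotent permutations. -/
def heis (p : ℕ) : Subgroup (Perm (ZMod p × ZMod p)) where
  carrier := {g | ∃ r s t : ZMod p, g = unip p r s t}
  one_mem' := ⟨0, 0, 0, (unip_one p).symm⟩
  mul_mem' := by
    rintro _ _ ⟨r, s, t, rfl⟩ ⟨r', s', t', rfl⟩
    exact ⟨_, _, _, unip_mul p r s t r' s' t'⟩
  inv_mem' := by
    rintro _ ⟨r, s, t, rfl⟩
    exact ⟨_, _, _, unip_inv p r s t⟩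

theorem unip_pow (p : ℕ) (r s t : ZMod p) (k : ℕ) :
    ∃ c : ZMod p, (unip p r s t) ^ k = unip p (k * r) (k * s) c := by
  induction k with
  | zero => exact ⟨0, by simp [unip_one]⟩
  | succ k ih =>
    obtain ⟨c, hc⟩ := ih
    refine ⟨c + t + (k * s) * r, ?_⟩
    rw [pow_succ, hc, unip_mul]
    push_cast
    congr 1 <;> ring

theorem unip_pow_central (p : ℕ) (t : ZMod p) (k : ℕ) :
    (unip p 0 0 t) ^ k = unip p 0 0 (k * t) := by
  induction k with
  | zero => simp [unip_one]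
  | succ k ih =>
    rw [pow_succ, ih, unip_mul]
    push_cast
    congr 1 <;> ring

theorem heis_isPGroup (p : ℕ) : IsPGroup p (heis p) := by
  rw [isPGroup_iff_pow_pow_eq_one]
  rintro ⟨_, r, s, t, rfl⟩
  refine ⟨2, ?_⟩
  apply Subtype.ext
  change (unip p r s t) ^ p ^ 2 = 1
  obtain ⟨c, hc⟩ := unip_pow p r s t p
  rw [pow_two, pow_mul, hc]
  have h1 : ((p : ℕ) : ZMod p) = 0 := ZMod.natCast_self p
  rw [h1, zero_mul, zero_mul, unip_pow_central, h1, zero_mul, unip_one]

theorem exists_heis {p : ℕ} (hp : p.Prime) {n : ℕ} (hn : 2 * p * p ≤ n) :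
    ∃ E₀ : Subgroup (Perm (Fin n)), IsPGroup p E₀ ∧ E₀ ≤ alternatingGroup (Fin n) ∧
      ∃ x ∈ E₀, ∃ y ∈ E₀, x * y * x⁻¹ * y⁻¹ ≠ 1 ∧ Commute (x * y * x⁻¹ * y⁻¹) x ∧
        Commute (x * y * x⁻¹ * y⁻¹) y ∧ (x * y * x⁻¹ * y⁻¹) ^ p = 1 := by
  classical
  have : Fact p.Prime := ⟨hp⟩
  have : NeZero p := ⟨hp.ne_zero⟩
  let X := ZMod p × ZMod p
  have hcard : Fintype.card (X ⊕ X) ≤ Fintype.card (Fin n) := by
    rw [Fintype.card_sum, Fintype.card_prod, ZMod.card, Fintype.card_fin]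
    calc p * p + p * p = 2 * p * p := by ring
      _ ≤ n := hn
  obtain ⟨e⟩ := Function.Embedding.nonempty_of_card_le hcard
  let f : X ⊕ X ≃ Set.range e := Equiv.ofInjective e e.injective
  let ι₁ : Perm X →* Perm (X ⊕ X) :=
    (sumCongrHom X X).comp (MonoidHom.prod (MonoidHom.id _) (MonoidHom.id _))
  let ι₂ : Perm (X ⊕ X) →* Perm (Fin n) := extendDomainHom f
  have hι₁ : Function.Injective ι₁ := by
    intro a b hab
    have h1 := sumCongrHom_injective hab
    exact (Prod.ext_iff.mp h1).1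
  have hι₂ : Function.Injective ι₂ := extendDomainHom_injective f
  let ι : Perm X →* Perm (Fin n) := ι₂.comp ι₁
  have hι : Function.Injective ι := hι₂.comp hι₁
  have hsign : ∀ g : Perm X, sign (ι g) = 1 := by
    intro g
    change sign (extendDomain (Perm.sumCongr g g) f) = 1
    rw [sign_extendDomain, sign_sumCongr]
    rcases Int.units_eq_one_or (sign g) with h | h <;> rw [h] <;> simp
  refine ⟨(heis p).map ι, (heis_isPGroup p).map ι, ?_, ι (unip p 0 1 0), ⟨_, ⟨0, 1, 0, rfl⟩, rfl⟩,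
    ι (unip p 1 0 0), ⟨_, ⟨1, 0, 0, rfl⟩, rfl⟩, ?_⟩
  · rintro _ ⟨g, _, rfl⟩
    exact mem_alternatingGroup.mpr (hsign g)
  · have hz : (unip p 0 1 0) * (unip p 1 0 0) * (unip p 0 1 0)⁻¹ * (unip p 1 0 0)⁻¹
        = unip p 0 0 1 := by
      rw [unip_inv, unip_inv, unip_mul, unip_mul, unip_mul]
      congr 1 <;> ring
    have hz' : ι (unip p 0 1 0) * ι (unip p 1 0 0) * (ι (unip p 0 1 0))⁻¹ * (ι (unip p 1 0 0))⁻¹
        = ι (unip p 0 0 1) := by
      rw [← hz]
      simp only [map_mul, map_inv]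
    rw [hz']
    refine ⟨?_, ?_, ?_, ?_⟩
    · intro h
      rw [← map_one ι] at h
      have h1 := hι h
      have h2 := congrArg (fun g : Perm X => (g (0, 0)).2) h1
      simp [unip] at h2
    · change _ * _ = _ * _
      rw [← map_mul, ← map_mul, unip_mul, unip_mul]
      congr 2 <;> ring
    · change _ * _ = _ * _
      rw [← map_mul, ← map_mul, unip_mul, unip_mul]
      congr 2 <;> ring
    · rw [← map_pow, unip_pow_central, ZMod.natCast_self, zero_mul, unip_one, map_one]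

end Pool.Agent.CbfAlt
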