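import Mathlib

set_option autoImplicit false

/-!
Lifting lemmas for MP_cbf6a9_al: homomorphisms of finite groups whose kernel has order prime to `p`.
-/

namespace Pool.Agent.CbfAlt

variable {H Q : Type*} [Group H] [Group Q] [Finite H]

theorem eq_one_of_ker {p : ℕ} (hp : p.Prime) (φ : H →* Q) (hk : ¬ p ∣ Nat.card φ.ker)
    {e : H} {a : ℕ} (he : e ^ p ^ a = 1) (hφ : φ e = 1) : e = 1 := by
  have h1 : orderOf e ∣ p ^ a := orderOf_dvd_of_pow_eq_one he
  have h2 : orderOf e ∣ Nat.card φ.ker := by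
    have h3 : orderOf (⟨e, MonoidHom.mem_ker.mpr hφ⟩ : φ.ker) ∣ Nat.card φ.ker :=
      orderOf_dvd_natCard _
    rwa [Subgroup.orderOf_mk] at h3
  have h4 : Nat.Coprime (p ^ a) (Nat.card φ.ker) :=
    Nat.Coprime.pow_left _ ((Nat.Prime.coprime_iff_not_dvd hp).mpr hk)
  have h5 : orderOf e = 1 := Nat.eq_one_of_dvd_coprimes h4 h1 h2
  exact orderOf_eq_one_iff.mp h5

omit [Finite H] in
/-- A coprime lift: elements of the image commuting with `φ z` lift to elements commuting with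
`z`. -/
theorem lift_comm {p : ℕ} [Fact p.Prime] (φ : H →* Q) (hk : ¬ p ∣ Nat.card φ.ker)
    {z : H} {a : ℕ} (hz : z ^ p ^ a = 1) {k : Q} (hkr : k ∈ φ.range) (hkz : Commute k (φ z)) :
    ∃ h : H, φ h = k ∧ Commute h z := by
  classical
  obtain ⟨h₀, hh₀⟩ := hkr
  have hcom : ∀ g : Subgroup.zpowers z, Commute (φ g) k := by
    rintro ⟨g, hg⟩
    obtain ⟨i, rfl⟩ := Subgroup.mem_zpowers_iff.mp hg
    change Commute (φ (z ^ i)) k
    rw [map_zpow]
    exact (hkz.symm).zpow_left i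
  let act : MulAction (Subgroup.zpowers z) {h : H // φ h = k} :=
    { smul := fun g h => ⟨g * h * (g : H)⁻¹, by
        rw [map_mul, map_mul, map_inv, h.2, (hcom g).eq]
        group⟩
      one_smul := by
        intro h
        apply Subtype.ext
        change ((1 : Subgroup.zpowers z) : H) * h * ((1 : Subgroup.zpowers z) : H)⁻¹ = h
        simp
      mul_smul := by
        intro g g' h
        apply Subtype.ext
        change ((g * g' : Subgroup.zpowers z) : H) * h * ((g * g' : Subgroup.zpowers z) : H)⁻¹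
          = g * (g' * h * (g' : H)⁻¹) * (g : H)⁻¹
        rw [Subgroup.coe_mul]
        group }
  have hP : IsPGroup p (Subgroup.zpowers z) := by
    rw [isPGroup_iff_pow_pow_eq_one]
    rintro ⟨g, hg⟩
    obtain ⟨i, rfl⟩ := Subgroup.mem_zpowers_iff.mp hg
    refine ⟨a, ?_⟩
    apply Subtype.ext
    change (z ^ i) ^ p ^ a = 1
    rw [← zpow_natCast, ← zpow_mul, mul_comm, zpow_mul, zpow_natCast, hz, one_zpow]
  have hcard : Nat.card {h : H // φ h = k} = Nat.card φ.ker := by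
    refine Nat.card_congr
      { toFun := fun h => ⟨h₀⁻¹ * h, by
          rw [MonoidHom.mem_ker, map_mul, map_inv, hh₀, h.2]; group⟩
        invFun := fun m => ⟨h₀ * m, by
          rw [map_mul, hh₀, MonoidHom.mem_ker.mp m.2, mul_one]⟩
        left_inv := by intro h; apply Subtype.ext; simp
        right_inv := by intro h; apply Subtype.ext; simp }
  have hnd : ¬ p ∣ Nat.card {h : H // φ h = k} := by rw [hcard]; exact hk
  obtain ⟨h, hh⟩ := hP.nonempty_fixed_point_of_prime_not_dvd_card {h : H // φ h = k} hnd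
  refine ⟨h, h.2, ?_⟩
  rw [MulAction.mem_fixedPoints] at hh
  have h1 := congrArg (fun x : {h : H // φ h = k} => (x : H))
    (hh ⟨z, Subgroup.mem_zpowers z⟩)
  change z * (h : H) * z⁻¹ = h at h1
  rw [mul_inv_eq_iff_eq_mul] at h1
  exact h1.symm

/-- A coprime lift of `p`-subgroups. -/
theorem lift_pgroup {p : ℕ} [Fact p.Prime] (φ : H →* Q)
    (E₀ : Subgroup Q) (hE₀ : IsPGroup p E₀) (hle : E₀ ≤ φ.range) :
    ∃ E : Subgroup H, IsPGroup p E ∧ E.map φ = E₀ := by
  classical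
  let H₀ : Subgroup H := E₀.comap φ
  let ψ : H₀ →* E₀ := φ.subgroupComap E₀
  have hψ : Function.Surjective ψ := by
    rintro ⟨e, he⟩
    obtain ⟨h, rfl⟩ := hle he
    exact ⟨⟨h, he⟩, rfl⟩
  obtain ⟨P⟩ : Nonempty (Sylow p H₀) := inferInstance
  have h1 : ((P.mapSurjective hψ : Sylow p E₀) : Subgroup E₀) = ⊤ := by
    have h2 : IsPGroup p (⊤ : Subgroup E₀) := hE₀.to_subgroup ⊤
    exact ((P.mapSurjective hψ).3 h2 le_top).symm
  rw [Sylow.coe_mapSurjective] at h1
  refine ⟨(P : Subgroup H₀).map H₀.subtype, P.2.map _, ?_⟩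
  apply le_antisymm
  · rintro _ ⟨_, ⟨h, _, rfl⟩, rfl⟩
    exact h.2
  · intro e he
    have h3 : (⟨e, he⟩ : E₀) ∈ (P : Subgroup H₀).map ψ := by rw [h1]; trivial
    obtain ⟨h, hh, hhe⟩ := h3
    exact ⟨h, ⟨h, hh, rfl⟩, congrArg Subtype.val hhe⟩

end Pool.Agent.CbfAlt
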