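import Mathlib

set_option autoImplicit false

/-!
Permutation lemmas for MP_cbf6a9_al (alternating case), part A: if a permutation of prime order `p`
has many cycles, and their number is divisible by `p`, then it lies in every subgroup of bounded
index that is normalised by its even centraliser.
-/

namespace Pool.Agent.CbfAlt

open Equiv Equiv.Perm Equiv.Perm.OnCycleFactors

variable {Ω : Type*} [Fintype Ω] [DecidableEq Ω]

/-- All cycle factors of a permutation of prime order `p` have order `p`. -/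
theorem orderOf_cycle {σ : Perm Ω} {p : ℕ} (hp : p.Prime) (hσ : orderOf σ = p)
    {c : Perm Ω} (hc : c ∈ σ.cycleFactorsFinset) : orderOf c = p := by
  have h1 : c.IsCycle := (mem_cycleFactorsFinset_iff.mp hc).1
  have h2 : orderOf c ∣ orderOf σ := by
    rw [h1.orderOf]
    have : c.support.card ∈ σ.cycleType := by
      rw [cycleType_def]
      exact Multiset.mem_map.mpr ⟨c, hc, rfl⟩
    exact dvd_of_mem_cycleType this
  rw [hσ] at h2
  rcases (Nat.dvd_prime hp).mp h2 with h | h
  · exfalso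
    rw [orderOf_eq_one_iff] at h
    exact h1.ne_one h
  · exact h

theorem card_support_cycle {σ : Perm Ω} {p : ℕ} (hp : p.Prime) (hσ : orderOf σ = p)
    {c : Perm Ω} (hc : c ∈ σ.cycleFactorsFinset) : c.support.card = p := by
  rw [← (mem_cycleFactorsFinset_iff.mp hc).1.orderOf]
  exact orderOf_cycle hp hσ hc

theorem sign_cycle {σ : Perm Ω} {p : ℕ} (hp : p.Prime) (hσ : orderOf σ = p)
    {c d : Perm Ω} (hc : c ∈ σ.cycleFactorsFinset) (hd : d ∈ σ.cycleFactorsFinset) :
    sign c = sign d := by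
  rw [(mem_cycleFactorsFinset_iff.mp hc).1.sign, (mem_cycleFactorsFinset_iff.mp hd).1.sign,
    card_support_cycle hp hσ hc, card_support_cycle hp hσ hd]

theorem commute_cycle {σ : Perm Ω} {c : Perm Ω} (hc : c ∈ σ.cycleFactorsFinset) :
    Commute c σ :=
  (self_mem_cycle_factors_commute hc)

theorem commute_cycles {σ : Perm Ω} {c d : Perm Ω} (hc : c ∈ σ.cycleFactorsFinset)
    (hd : d ∈ σ.cycleFactorsFinset) : Commute c d := by
  by_cases h : c = d
  · rw [h]
  · exact cycleFactorsFinset_mem_commute σ hc hd h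

/-- Even lifts of products of two equal permutations of the cycles. -/
theorem exists_even_lift {σ : Perm Ω} {p : ℕ} (hp : p.Prime) (hσ : orderOf σ = p)
    (π : Perm σ.cycleFactorsFinset) :
    ∃ t : Perm Ω, sign t = 1 ∧ Commute t σ ∧
      ∀ c : σ.cycleFactorsFinset, t * (c : Perm Ω) * t⁻¹ = ((π * π) c : Perm Ω) := by
  obtain ⟨a⟩ := Basis.nonempty σ
  have hπ : π ∈ range_toPermHom' σ := by
    intro c
    rw [card_support_cycle hp hσ (π c).2, card_support_cycle hp hσ c.2]
  let s := Basis.toCentralizer a ⟨π, hπ⟩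
  refine ⟨((s * s : Subgroup.centralizer {σ}) : Perm Ω), ?_, ?_, ?_⟩
  · rw [Subgroup.coe_mul, Perm.sign_mul]
    rcases Int.units_eq_one_or (sign (s : Perm Ω)) with h | h <;> rw [h] <;> simp
  · have := (s * s).2
    rw [Subgroup.mem_centralizer_singleton_iff] at this
    exact this
  · intro c
    have h1 : ∀ c : σ.cycleFactorsFinset, s • c = π c := fun c =>
      Basis.toCentralizer_equivariant (a := a) (τ := ⟨π, hπ⟩) c
    have h2 : (s * s) • c = (π * π) c := by
      rw [mul_smul, h1, h1]; rfl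
    rw [← h2, val_centralizer_smul]
    rfl

/-- Number of cycles divisible by `p`. -/
theorem dvd_card_cycles {σ x y : Perm Ω} {p : ℕ} [Fact p.Prime]
    (P : Subgroup (Perm Ω)) (hP : IsPGroup p P) (hPσ : ∀ g ∈ P, Commute g σ)
    (hx : x ∈ P) (hy : y ∈ P) (hxy : σ = x * y * x⁻¹ * y⁻¹) :
    p ∣ Nat.card σ.cycleFactorsFinset := by
  have hle : P ≤ Subgroup.centralizer {σ} := by
    intro g hg
    rw [Subgroup.mem_centralizer_singleton_iff]
    exact hPσ g hg
  let _ : MulAction P σ.cycleFactorsFinset :=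
    MulAction.compHom _ (Subgroup.inclusion hle)
  have hsm : ∀ (g : P) (c : σ.cycleFactorsFinset),
      ((g • c : σ.cycleFactorsFinset) : Perm Ω) = g * c * (g : Perm Ω)⁻¹ := by
    intro g c
    exact val_centralizer_smul (g := σ) (Subgroup.inclusion hle g) c
  by_contra hnd
  obtain ⟨c, hc⟩ := hP.nonempty_fixed_point_of_prime_not_dvd_card σ.cycleFactorsFinset hnd
  rw [MulAction.mem_fixedPoints] at hc
  have hcx : x * (c : Perm Ω) * x⁻¹ = c := by
    rw [← hsm ⟨x, hx⟩ c, hc]
  have hcy : y * (c : Perm Ω) * y⁻¹ = c := by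
    rw [← hsm ⟨y, hy⟩ c, hc]
  have hcyc : (c : Perm Ω).IsCycle := (mem_cycleFactorsFinset_iff.mp c.2).1
  -- elements commuting with the cycle act on its support as powers
  have key : ∀ g : Perm Ω, g * (c : Perm Ω) * g⁻¹ = c → ∀ w ∈ (c : Perm Ω).support,
      ∃ k : ℤ, g w = ((c : Perm Ω) ^ k) w := by
    intro g hg w hw
    have hgw : g w ∈ (c : Perm Ω).support := by
      rw [mem_support] at hw ⊢
      have h1 : g * (c : Perm Ω) = c * g := by
        rw [mul_inv_eq_iff_eq_mul] at hg
        exact hg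
      have h2 : (c : Perm Ω) (g w) = g ((c : Perm Ω) w) := by
        have := congrArg (fun f : Perm Ω => f w) h1
        simp only [Perm.mul_apply] at this
        exact this.symm
      rw [h2]
      intro h3
      exact hw (g.injective h3)
    obtain ⟨k, hk⟩ := hcyc.exists_zpow_eq (mem_support.mp hw) (mem_support.mp hgw)
    exact ⟨k, hk.symm⟩
  obtain ⟨w, hw⟩ : (c : Perm Ω).support.Nonempty := by
    rw [Finset.nonempty_iff_ne_empty]
    intro h
    rw [support_eq_empty_iff] at h
    exact hcyc.ne_one h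
  have hσw : σ w ≠ w := by
    have := (mem_cycleFactorsFinset_iff.mp c.2).2 w hw
    rw [← this]
    exact mem_support.mp hw
  have hpow : ∀ (k : ℤ), ((c : Perm Ω) ^ k) w ∈ (c : Perm Ω).support := by
    intro k
    exact zpow_apply_mem_support.mpr hw
  obtain ⟨k, hk⟩ := key x hcx w hw
  obtain ⟨l, hl⟩ := key y hcy w hw
  have comm : ∀ g : Perm Ω, g * (c : Perm Ω) * g⁻¹ = c → ∀ (m : ℤ) (v : Ω),
      g (((c : Perm Ω) ^ m) v) = ((c : Perm Ω) ^ m) (g v) := by
    intro g hg m v
    have h1 : Commute g (c : Perm Ω) := by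
      rw [mul_inv_eq_iff_eq_mul] at hg
      exact hg
    have h2 := (h1.zpow_right m).eq
    have := congrArg (fun f : Perm Ω => f v) h2
    simpa only [Perm.mul_apply] using this
  have e1 : (x * y) w = (y * x) w := by
    simp only [Perm.mul_apply]
    rw [hl, hk, comm x hcx l w, comm y hcy k w, hk, hl, ← Perm.mul_apply, ← Perm.mul_apply,
      ← zpow_add, ← zpow_add, add_comm]
  -- x y = σ (y x)
  have e2 : x * y = σ * (y * x) := by
    rw [hxy]; group
  rw [e2, Perm.mul_apply, Perm.mul_apply] at e1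
  -- σ fixes y (x w), which lies in the support
  have hmem : y (x w) ∈ (c : Perm Ω).support := by
    rw [hk, comm y hcy, hl, ← Perm.mul_apply, ← zpow_add]
    exact hpow _
  have h4 := (mem_cycleFactorsFinset_iff.mp c.2).2 _ hmem
  rw [mem_support] at hmem
  exact hmem (h4.trans e1)

/-- The product of all cycles, up to powers of a fixed one. -/
theorem mem_of_all {σ : Perm Ω} {p : ℕ} (hp : p.Prime) (hσ : orderOf σ = p)
    (N : Subgroup (Perm Ω)) (hpc : p ∣ Nat.card σ.cycleFactorsFinset)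
    (c₀ : Perm Ω) (hc₀ : c₀ ∈ σ.cycleFactorsFinset)
    (hall : ∀ c ∈ σ.cycleFactorsFinset, c * c₀⁻¹ ∈ N) : σ ∈ N := by
  have hgen : ∀ S : Finset (Perm Ω), (hS : S ⊆ σ.cycleFactorsFinset) →
      ∃ q : Perm Ω, q = S.noncommProd id (fun a ha b hb _ => commute_cycles (hS ha) (hS hb)) ∧
        Commute q c₀ ∧ q * (c₀⁻¹) ^ S.card ∈ N := by
    intro S
    induction S using Finset.induction_on with
    | empty =>
      intro _
      refine ⟨1, by simp, Commute.one_left _, by simp [N.one_mem]⟩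
    | insert a S ha ih =>
      intro hS
      obtain ⟨q, hq, hqc, hqN⟩ := ih (fun b hb => hS (Finset.mem_insert_of_mem hb))
      have haS : a ∈ σ.cycleFactorsFinset := hS (Finset.mem_insert_self a S)
      refine ⟨a * q, ?_, ?_, ?_⟩
      · rw [Finset.noncommProd_insert_of_notMem _ _ _ _ ha, hq]
        rfl
      · exact (commute_cycles haS hc₀).mul_left hqc
      · rw [Finset.card_insert_of_notMem ha, pow_succ']
        have h1 : a * q * (c₀⁻¹ * c₀⁻¹ ^ S.card) = (a * c₀⁻¹) * (q * c₀⁻¹ ^ S.card) := by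
          have h2 : q * c₀⁻¹ = c₀⁻¹ * q := (hqc.inv_right).eq
          calc a * q * (c₀⁻¹ * c₀⁻¹ ^ S.card) = a * (q * c₀⁻¹) * c₀⁻¹ ^ S.card := by group
            _ = a * (c₀⁻¹ * q) * c₀⁻¹ ^ S.card := by rw [h2]
            _ = (a * c₀⁻¹) * (q * c₀⁻¹ ^ S.card) := by group
        rw [h1]
        exact N.mul_mem (hall a haS) hqN
  obtain ⟨q, hq, _, hqN⟩ := hgen σ.cycleFactorsFinset (Finset.Subset.refl _)
  have hqσ : q = σ := by
    rw [hq]
    exact cycleFactorsFinset_noncommProd σ
  rw [hqσ] at hqN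
  have hcard : σ.cycleFactorsFinset.card = Nat.card σ.cycleFactorsFinset := by
    simp
  rw [hcard] at hqN
  obtain ⟨m, hm⟩ := hpc
  have h1 : (c₀⁻¹) ^ Nat.card σ.cycleFactorsFinset = 1 := by
    rw [hm, pow_mul, inv_pow, ← orderOf_cycle hp hσ hc₀, pow_orderOf_eq_one]
    simp
  rwa [h1, mul_one] at hqN

/-- Lemma A. -/
theorem mem_of_index {σ : Perm Ω} {p : ℕ} (hp : p.Prime) (hσ : orderOf σ = p)
    (N : Subgroup (Perm Ω))
    (hN : ∀ k : Perm Ω, sign k = 1 → Commute k σ → ∀ n ∈ N, k * n * k⁻¹ ∈ N)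
    (hpig : ∀ f : σ.cycleFactorsFinset → Perm Ω, (∀ j, sign (f j) = 1 ∧ Commute (f j) σ) →
      ∃ j k, j ≠ k ∧ (f j)⁻¹ * f k ∈ N)
    (h4 : 4 ≤ Nat.card σ.cycleFactorsFinset)
    (hpc : p ∣ Nat.card σ.cycleFactorsFinset) : σ ∈ N := by
  classical
  have hne : Nonempty σ.cycleFactorsFinset := by
    by_contra h
    rw [not_nonempty_iff] at h
    rw [Nat.card_of_isEmpty] at h4
    omega
  obtain ⟨c₁⟩ := hne
  obtain ⟨j, k, hjk, hjkN⟩ := hpig (fun c => (c₁ : Perm Ω)⁻¹ * c) (by
    intro c
    constructor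
    · rw [Perm.sign_mul, Perm.sign_inv, sign_cycle hp hσ c₁.2 c.2]
      rcases Int.units_eq_one_or (sign (c : Perm Ω)) with h | h <;> rw [h] <;> simp
    · exact (commute_cycle c₁.2).inv_left.mul_left (commute_cycle c.2))
  have hjkN' : (j : Perm Ω)⁻¹ * k ∈ N := by
    have : ((c₁ : Perm Ω)⁻¹ * (j : Perm Ω))⁻¹ * ((c₁ : Perm Ω)⁻¹ * (k : Perm Ω))
        = (j : Perm Ω)⁻¹ * k := by group
    rwa [this] at hjkN
  -- all others
  have hall : ∀ l : σ.cycleFactorsFinset, (j : Perm Ω)⁻¹ * l ∈ N := by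
    intro l
    by_cases hlj : l = j
    · rw [hlj]; simp [N.one_mem]
    by_cases hlk : l = k
    · rw [hlk]; exact hjkN'
    -- a further cycle
    obtain ⟨m, hm⟩ : ∃ m : σ.cycleFactorsFinset, m ∉ ({j, k, l} : Finset _) := by
      by_contra hcon
      push Not at hcon
      have h1 : (Finset.univ : Finset σ.cycleFactorsFinset) ⊆ {j, k, l} := fun m _ => hcon m
      have h2 := Finset.card_le_card h1
      rw [Finset.card_univ, ← Nat.card_eq_fintype_card] at h2
      have h3 : ({j, k, l} : Finset σ.cycleFactorsFinset).card ≤ 3 := Finset.card_le_three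
      omega
    simp only [Finset.mem_insert, Finset.mem_singleton, not_or] at hm
    -- the 3-cycle k → l → m → k is a square
    set π : Perm σ.cycleFactorsFinset := swap k m * swap k l with hπ
    -- π : k ↦ l ↦ m?? compute π*π
    obtain ⟨t, ht1, ht2, ht3⟩ := exists_even_lift hp hσ (swap k l * swap k m)
    -- (swap k l * swap k m) : k ↦ m, m ↦ l (since m ↦ k ↦ l), l ↦ k
    have hj : ((swap k l * swap k m) * (swap k l * swap k m)) j = j := by
      have e1 : (swap k m) j = j := swap_apply_of_ne_of_ne hjk (fun h => hm.1 h.symm)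
      have e2 : (swap k l) j = j := swap_apply_of_ne_of_ne hjk (fun h => hlj h.symm)
      simp only [Perm.mul_apply, e1, e2]
    have hk : ((swap k l * swap k m) * (swap k l * swap k m)) k = l := by
      have e1 : (swap k m) k = m := swap_apply_left k m
      have e2 : (swap k l) m = m := swap_apply_of_ne_of_ne hm.2.1 hm.2.2
      have e3 : (swap k m) m = k := swap_apply_right k m
      have e4 : (swap k l) k = l := swap_apply_left k l
      simp only [Perm.mul_apply, e1, e2, e3, e4]
    have h5 := hN t ht1 ht2 _ hjkN'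
    have h6 : t * ((j : Perm Ω)⁻¹ * k) * t⁻¹ = (j : Perm Ω)⁻¹ * l := by
      have e1 := ht3 j
      have e2 := ht3 k
      rw [hj] at e1
      rw [hk] at e2
      calc t * ((j : Perm Ω)⁻¹ * k) * t⁻¹ = (t * (j : Perm Ω) * t⁻¹)⁻¹ * (t * k * t⁻¹) := by group
        _ = _ := by rw [e1, e2]
    rwa [h6] at h5
  refine mem_of_all hp hσ N hpc j j.2 ?_
  intro c hc
  have h1 := hall ⟨c, hc⟩
  have h2 : c * (j : Perm Ω)⁻¹ = (j : Perm Ω)⁻¹ * c := (commute_cycles hc j.2).inv_right.eq
  rw [h2]
  exact h1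

end Pool.Agent.CbfAlt
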