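import Mathlib

set_option autoImplicit false

/-!
Permutation lemmas for MP_cbf6a9_al (alternating case), part B: a subgroup of bounded index that is
normalised by the even permutations commuting with `σ` contains all even permutations that only move
fixed points of `σ`.
-/

namespace Pool.Agent.CbfAlt

open Equiv Equiv.Perm

theorem alt_le {Φ : Type*} [Fintype Φ] [DecidableEq Φ] (N : Subgroup (Perm Φ))
    (h5 : 5 ≤ Nat.card Φ)
    (hN : ∀ k : Perm Φ, sign k = 1 → ∀ n ∈ N, k * n * k⁻¹ ∈ N) (m : ℕ)
    (hm : m + 3 ≤ Nat.card Φ)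
    (hpig : ∀ f : Fin (m + 1) → Perm Φ, (∀ j, sign (f j) = 1) →
      ∃ j k, j ≠ k ∧ (f j)⁻¹ * f k ∈ N) : alternatingGroup Φ ≤ N := by
  classical
  rw [Nat.card_eq_fintype_card] at hm
  have hemb : Nonempty (Fin (m + 3) ↪ Φ) := by
    rw [Function.Embedding.nonempty_iff_card_le, Fintype.card_fin]
    exact hm
  obtain ⟨e⟩ := hemb
  set a : Φ := e ⟨0, by omega⟩ with ha
  set b : Φ := e ⟨1, by omega⟩ with hb
  set x : Fin (m + 1) → Φ := fun i => e ⟨i.1 + 2, by omega⟩ with hx
  have hab : a ≠ b := by
    intro h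
    have := e.injective h
    rw [Fin.mk.injEq] at this
    omega
  have hax : ∀ i, a ≠ x i := by
    intro i h
    have := e.injective h
    rw [Fin.mk.injEq] at this
    omega
  have hbx : ∀ i, b ≠ x i := by
    intro i h
    have := e.injective h
    rw [Fin.mk.injEq] at this
    omega
  have hxx : ∀ i j, i ≠ j → x i ≠ x j := by
    intro i j hij h
    have := e.injective h
    rw [Fin.mk.injEq] at this
    apply hij
    ext
    omega
  obtain ⟨j, k, hjk, hjkN⟩ := hpig (fun i => swap a (x i) * swap a b) (by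
    intro i
    rw [Perm.sign_mul, sign_swap (hax i), sign_swap hab]
    simp)
  -- the element is a 3-cycle
  have h3 : IsThreeCycle ((swap a (x j) * swap a b)⁻¹ * (swap a (x k) * swap a b)) := by
    have h1 : (swap a (x j) * swap a b)⁻¹ * (swap a (x k) * swap a b)
        = swap a b * (swap a (x j) * swap a (x k)) * (swap a b)⁻¹ := by
      rw [mul_inv_rev, swap_inv, swap_inv]
      simp only [mul_assoc]
    rw [h1]
    have h2 : IsThreeCycle (swap a (x j) * swap a (x k)) :=
      isThreeCycle_swap_mul_swap_same (hax j) (hax k) (hxx j k hjk)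
    rw [IsThreeCycle, cycleType_conj]
    exact h2
  rw [← closure_three_cycles_eq_alternating, Subgroup.closure_le]
  intro g hg
  rw [Set.mem_setOf_eq] at hg
  set u := (swap a (x j) * swap a b)⁻¹ * (swap a (x k) * swap a b) with hu
  have hc : IsConj (⟨u, h3.mem_alternatingGroup⟩ : alternatingGroup Φ)
      ⟨g, hg.mem_alternatingGroup⟩ :=
    alternatingGroup.isThreeCycle_isConj h5 h3 hg
  obtain ⟨k', hk'⟩ := isConj_iff.mp hc
  have h6 := congrArg (fun z : alternatingGroup Φ => (z : Perm Φ)) hk'
  simp only [Subgroup.coe_mul, Subgroup.coe_inv] at h6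
  rw [SetLike.mem_coe, ← h6]
  exact hN k' (mem_alternatingGroup.mp k'.2) u hjkN

/-- Lemma B. -/
theorem mem_of_fix {Ω : Type*} [Fintype Ω] [DecidableEq Ω] {σ : Perm Ω}
    (N : Subgroup (Perm Ω))
    (hN : ∀ k : Perm Ω, sign k = 1 → Commute k σ → ∀ n ∈ N, k * n * k⁻¹ ∈ N) (m : ℕ)
    (hpig : ∀ f : Fin (m + 1) → Perm Ω, (∀ j, sign (f j) = 1 ∧ Commute (f j) σ) →
      ∃ j k, j ≠ k ∧ (f j)⁻¹ * f k ∈ N)
    (hm : m + 5 ≤ Nat.card {x : Ω // σ x = x})
    {w : Perm Ω} (hw1 : sign w = 1) (hw2 : ∀ x, σ x ≠ x → w x = x) : w ∈ N := by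
  classical
  -- permutations supported in the fixed points commute with σ
  have hcomm : ∀ u : Perm {x : Ω // σ x = x}, Commute (ofSubtype u) σ := by
    intro u
    ext x
    simp only [Perm.mul_apply]
    by_cases hx : σ x = x
    · rw [hx]
      have h1 : (ofSubtype u) x = u ⟨x, hx⟩ := ofSubtype_apply_of_mem u hx
      rw [h1]
      exact (u ⟨x, hx⟩).2.symm
    · have h1 : (ofSubtype u) x = x := ofSubtype_apply_of_not_mem u hx
      have h2 : ¬ σ (σ x) = σ x := fun h => hx (σ.injective h)
      have h3 : (ofSubtype u) (σ x) = σ x := ofSubtype_apply_of_not_mem u h2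
      rw [h1, h3]
  have hle : alternatingGroup {x : Ω // σ x = x} ≤ N.comap ofSubtype := by
    refine alt_le (N.comap ofSubtype) (by omega) ?_ m (by omega) ?_
    · intro k hk n hn
      rw [Subgroup.mem_comap] at hn ⊢
      rw [map_mul, map_mul, map_inv]
      refine hN _ ?_ (hcomm k) _ hn
      rw [sign_ofSubtype, hk]
    · intro f hf
      obtain ⟨j, k, hjk, h⟩ := hpig (fun i => ofSubtype (f i)) (by
        intro i
        exact ⟨by rw [sign_ofSubtype, hf i], hcomm (f i)⟩)
      refine ⟨j, k, hjk, ?_⟩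
      rw [Subgroup.mem_comap, map_mul, map_inv]
      exact h
  -- w comes from the subtype
  have hw3 : ∀ x, σ (w x) = w x ↔ σ x = x := by
    intro x
    constructor
    · intro h
      by_contra hx
      rw [hw2 x hx] at h
      exact hx h
    · intro h
      by_contra hx
      have h1 := hw2 (w x) hx
      have h2 := w.injective h1
      rw [h2] at hx
      exact hx h
  have hw4 : ofSubtype (Perm.subtypePerm (p := fun x => σ x = x) w hw3) = w :=
    ofSubtype_subtypePerm hw3 (fun x hx => by
      by_contra h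
      exact hx (hw2 x h))
  have hw5 : sign (Perm.subtypePerm (p := fun x => σ x = x) w hw3) = 1 := by
    rw [← sign_ofSubtype, hw4, hw1]
  have := hle (mem_alternatingGroup.mpr hw5)
  rw [Subgroup.mem_comap, hw4] at this
  exact this

end Pool.Agent.CbfAlt
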