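import Mathlib
import Pool.Agent.CbfAlt.PermA
import Pool.Agent.CbfAlt.PermB
import Pool.Agent.CbfAlt.Lift
import Pool.Agent.CbfAlt.Heis

set_option autoImplicit false

/-!
Main argument for MP_cbf6a9_al: groups covered by finite subgroups with alternating quotients and
kernels of order prime to `p` have a proper subgroup that is not residually finite.
-/

namespace Pool.Agent.CbfAlt

open Equiv Equiv.Perm

variable {G : Type*} [Group G]

/-- `φ` maps the finite subgroup `H` onto an alternating group, with kernel of order prime to `p`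
missing the nontrivial elements of `F ⊆ H`. -/
structure Good (p : ℕ) (F : Finset G) (H : Subgroup G) (n : ℕ) (φ : H →* Perm (Fin n)) :
    Prop where
  fin : Finite H
  mem : ∀ g ∈ F, g ∈ H
  range : φ.range = alternatingGroup (Fin n)
  ker : ¬ p ∣ Nat.card φ.ker
  inj : ∀ h : H, (h : G) ∈ F → φ h = 1 → h = 1

theorem Good.mono {p : ℕ} {F F' : Finset G} (hF : F ⊆ F') {H : Subgroup G} {n : ℕ}
    {φ : H →* Perm (Fin n)} (h : Good p F' H n φ) : Good p F H n φ :=
  ⟨h.fin, fun g hg => h.mem g (hF hg), h.range, h.ker, fun k hk => h.inj k (hF hk)⟩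

/-- The covering hypothesis. -/
def Cover (p : ℕ) (G : Type*) [Group G] : Prop :=
  ∀ F : Finset G, ∃ (H : Subgroup G) (n : ℕ) (φ : H →* Perm (Fin n)), Good p F H n φ

theorem Cover.big {p : ℕ} (hG : Infinite G) (hc : Cover p G) (F : Finset G) (B : ℕ) :
    ∃ (H : Subgroup G) (n : ℕ) (φ : H →* Perm (Fin n)), Good p F H n φ ∧ B ≤ n := by
  classical
  obtain ⟨F₁, hF₁⟩ := Infinite.exists_subset_card_eq G (B.factorial + 1)
  let F' : Finset G := F ∪ (F₁ ∪ Finset.image₂ (fun a b => a⁻¹ * b) F₁ F₁)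
  obtain ⟨H, n, φ, h⟩ := hc F'
  refine ⟨H, n, φ, h.mono Finset.subset_union_left, ?_⟩
  by_contra hB
  push Not at hB
  have hmem : ∀ a ∈ F₁, a ∈ H := fun a ha =>
    h.mem a (Finset.mem_union_right _ (Finset.mem_union_left _ ha))
  let ψ : F₁ → Perm (Fin n) := fun a => φ ⟨a, hmem a a.2⟩
  have hψ : Function.Injective ψ := by
    intro a b hab
    have h1 : φ (⟨a, hmem a a.2⟩⁻¹ * ⟨b, hmem b b.2⟩) = 1 := by
      rw [map_mul, map_inv]
      change (ψ a)⁻¹ * ψ b = 1
      rw [hab, inv_mul_cancel]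
    have h2 := h.inj _ (by
      refine Finset.mem_union_right _ (Finset.mem_union_right _ ?_)
      rw [Finset.mem_image₂]
      exact ⟨a, a.2, b, b.2, rfl⟩) h1
    have h3 := congrArg (fun z : H => (z : G)) h2
    have h4 : (a : G)⁻¹ * b = 1 := h3
    apply Subtype.ext
    exact (inv_mul_eq_one.mp h4)
  have h5 := Fintype.card_le_of_injective ψ hψ
  rw [Fintype.card_coe, hF₁, Fintype.card_perm, Fintype.card_fin] at h5
  have h6 : n.factorial ≤ B.factorial := Nat.factorial_le hB.le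
  omega

section transfer

variable {p : ℕ} [Fact p.Prime] {F : Finset G} {H : Subgroup G} {n : ℕ} {φ : H →* Perm (Fin n)}
  (hgood : Good p F H n φ) {z : G} (hzH : z ∈ H) (hzp : z ^ p = 1)
  (N : Subgroup (Subgroup.centralizer {z}))

/-- The image of `N ∩ H` in the alternating group. -/
def Nbar (φ : H →* Perm (Fin n)) (N : Subgroup (Subgroup.centralizer {z})) :
    Subgroup (Perm (Fin n)) :=
  ((N.map (Subgroup.centralizer {z}).subtype).subgroupOf H).map φ

include hgood hzp in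
theorem lift_even {k : Perm (Fin n)} (hk : sign k = 1) (hkz : Commute k (φ ⟨z, hzH⟩)) :
    ∃ h : H, φ h = k ∧ (h : G) ∈ Subgroup.centralizer {z} := by
  have := hgood.fin
  obtain ⟨h, h1, h2⟩ := lift_comm (p := p) φ hgood.ker (z := ⟨z, hzH⟩) (a := 1)
    (by apply Subtype.ext; simpa using hzp) (k := k)
    (by rw [hgood.range]; exact mem_alternatingGroup.mpr hk) hkz
  refine ⟨h, h1, ?_⟩
  rw [Subgroup.mem_centralizer_singleton_iff]
  have h3 := congrArg (fun x : H => (x : G)) h2.eq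
  simpa using h3

include hgood hzp in
theorem Nbar_conj (hN : N.Normal) (k : Perm (Fin n)) (hk : sign k = 1)
    (hkz : Commute k (φ ⟨z, hzH⟩)) (m : Perm (Fin n)) (hm : m ∈ Nbar φ N) :
    k * m * k⁻¹ ∈ Nbar φ N := by
  obtain ⟨h, rfl, hC⟩ := lift_even hgood hzH hzp hk hkz
  obtain ⟨ν, hν, rfl⟩ := hm
  obtain ⟨ν', hν', hνν'⟩ := hν
  refine ⟨h * ν * h⁻¹, ?_, by simp⟩
  refine ⟨⟨h, hC⟩ * ν' * ⟨h, hC⟩⁻¹, hN.conj_mem ν' hν' _, ?_⟩
  have : (ν' : G) = ν := hνν'
  simp [this]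

include hgood hzp in
theorem Nbar_pigeon {ι : Type*} [Finite ι] (hι : N.index < Nat.card ι) (hN0 : N.index ≠ 0)
    (f : ι → Perm (Fin n)) (hf : ∀ j, sign (f j) = 1 ∧ Commute (f j) (φ ⟨z, hzH⟩)) :
    ∃ j k, j ≠ k ∧ (f j)⁻¹ * f k ∈ Nbar φ N := by
  classical
  choose h h1 h2 using fun j => lift_even hgood hzH hzp (hf j).1 (hf j).2
  have hfin : Finite (Subgroup.centralizer {z} ⧸ N) := by
    have : N.FiniteIndex := ⟨hN0⟩
    infer_instance
  have hcard : Nat.card (Subgroup.centralizer {z} ⧸ N) = N.index := rfl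
  let q : ι → (Subgroup.centralizer {z} ⧸ N) := fun j => QuotientGroup.mk ⟨h j, h2 j⟩
  have hnq : ¬ Function.Injective q := by
    intro hinj
    have := Nat.card_le_card_of_injective q hinj
    omega
  rw [Function.Injective] at hnq
  push Not at hnq
  obtain ⟨j, k, hjk, hne⟩ := hnq
  refine ⟨j, k, hne, (h j)⁻¹ * h k, ?_, ?_⟩
  · refine ⟨⟨h j, h2 j⟩⁻¹ * ⟨h k, h2 k⟩, QuotientGroup.eq.mp hjk, ?_⟩
    simp
  · rw [map_mul, map_inv, h1, h1]

include hgood in
theorem mem_of_Nbar (hN : N.Normal) {v : Subgroup.centralizer {z}} (hvH : (v : G) ∈ H) {a : ℕ}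
    (hv : v ^ p ^ a = 1) (hmem : φ ⟨v, hvH⟩ ∈ Nbar φ N) : v ∈ N := by
  have := hgood.fin
  obtain ⟨ν, hν, hνv⟩ := hmem
  obtain ⟨ν', hν', hνν'⟩ := hν
  have e1 : (ν' : G) = ν := hνν'
  -- m = ν⁻¹ v lies in the kernel
  set m : H := ν⁻¹ * ⟨v, hvH⟩ with hm
  have hmker : m ∈ φ.ker := by
    rw [MonoidHom.mem_ker, hm, map_mul, map_inv, hνv, inv_mul_cancel]
  have hmG : ((ν'⁻¹ * v : Subgroup.centralizer {z}) : G) = m := by
    simp [hm, e1]
  have hmpow : (ν'⁻¹ * v) ^ Nat.card φ.ker = 1 := by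
    apply Subtype.ext
    rw [Subgroup.coe_pow, hmG, ← Subgroup.coe_pow]
    have h1 : (⟨m, hmker⟩ : φ.ker) ^ Nat.card φ.ker = 1 := pow_card_eq_one'
    have h2 := congrArg (fun x : φ.ker => (x : H)) h1
    simp only [Subgroup.coe_pow] at h2
    rw [h2]
    rfl
  have hq : (QuotientGroup.mk' N) v = (QuotientGroup.mk' N) (ν'⁻¹ * v) := by
    rw [map_mul, map_inv]
    have : (QuotientGroup.mk' N) ν' = 1 := by
      rw [QuotientGroup.mk'_apply, QuotientGroup.eq_one_iff]; exact hν'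
    rw [this]; simp
  have ho1 : orderOf ((QuotientGroup.mk' N) v) ∣ p ^ a := by
    apply orderOf_dvd_of_pow_eq_one
    rw [← map_pow, hv, map_one]
  have ho2 : orderOf ((QuotientGroup.mk' N) v) ∣ Nat.card φ.ker := by
    apply orderOf_dvd_of_pow_eq_one
    rw [hq, ← map_pow, hmpow, map_one]
  have h4 : Nat.Coprime (p ^ a) (Nat.card φ.ker) :=
    Nat.Coprime.pow_left _ ((Nat.Prime.coprime_iff_not_dvd (Fact.out : p.Prime)).mpr hgood.ker)
  have h5 := Nat.eq_one_of_dvd_coprimes h4 ho1 ho2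
  rw [orderOf_eq_one_iff, QuotientGroup.mk'_apply, QuotientGroup.eq_one_iff] at h5
  exact h5

end transfer

end Pool.Agent.CbfAlt
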