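import Mathlib
import Pool.Agent.CbfAlt.Main

set_option autoImplicit false

/-!
Final assembly for MP_cbf6a9_al, alternating case.
-/

namespace Pool.Agent.CbfAlt

open Equiv Equiv.Perm

variable {G : Type*} [Group G]

/-- A central commutator of order `p` in a finite `p`-subgroup generated by two elements. -/
theorem exists_xyz {p : ℕ} [Fact p.Prime] (hG : Infinite G) (hc : Cover p G) :
    ∃ x y : G, IsPGroup p (Subgroup.closure ({x, y} : Set G)) ∧
      x * y * x⁻¹ * y⁻¹ ≠ 1 ∧ Commute (x * y * x⁻¹ * y⁻¹) x ∧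
        Commute (x * y * x⁻¹ * y⁻¹) y ∧ (x * y * x⁻¹ * y⁻¹) ^ p = 1 := by
  classical
  have hp : p.Prime := Fact.out
  obtain ⟨H, n, φ, hgood, hn⟩ := hc.big hG ∅ (2 * p * p)
  have := hgood.fin
  obtain ⟨E₀, hE₀, hE₀le, x₀, hx₀, y₀, hy₀, h1, h2, h3, h4⟩ := exists_heis hp hn
  obtain ⟨E, hE, hEmap⟩ := lift_pgroup φ E₀ hE₀ (by rw [hgood.range]; exact hE₀le)
  have hx₁ : x₀ ∈ E.map φ := by rw [hEmap]; exact hx₀
  have hy₁ : y₀ ∈ E.map φ := by rw [hEmap]; exact hy₀
  obtain ⟨x, hx, hxx⟩ := hx₁
  obtain ⟨y, hy, hyy⟩ := hy₁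
  have key : ∀ e ∈ E, φ e = 1 → e = 1 := by
    intro e he hφe
    obtain ⟨a, ha⟩ := (isPGroup_iff_pow_pow_eq_one.mp hE) ⟨e, he⟩
    refine eq_one_of_ker hp φ hgood.ker (a := a) ?_ hφe
    have := congrArg (fun z : E => (z : H)) ha
    simpa using this
  have hz : x * y * x⁻¹ * y⁻¹ ∈ E :=
    E.mul_mem (E.mul_mem (E.mul_mem hx hy) (E.inv_mem hx)) (E.inv_mem hy)
  have hφz : φ (x * y * x⁻¹ * y⁻¹) = x₀ * y₀ * x₀⁻¹ * y₀⁻¹ := by
    simp only [map_mul, map_inv, hxx, hyy]
  refine ⟨x, y, ?_, ?_, ?_, ?_, ?_⟩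
  · have h5 : IsPGroup p (E.map H.subtype) := hE.map _
    refine h5.to_le ?_
    rw [Subgroup.closure_le]
    rintro g (rfl | rfl)
    · exact ⟨x, hx, rfl⟩
    · exact ⟨y, hy, rfl⟩
  · intro h
    apply h1
    rw [← hφz]
    have : x * y * x⁻¹ * y⁻¹ = 1 := by
      apply Subtype.ext
      simpa using h
    rw [this, map_one]
  · have h6 : (x * y * x⁻¹ * y⁻¹) * x * (x * y * x⁻¹ * y⁻¹)⁻¹ * x⁻¹ = 1 := by
      apply key
      · exact E.mul_mem (E.mul_mem (E.mul_mem hz hx) (E.inv_mem hz)) (E.inv_mem hx)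
      · rw [map_mul, map_mul, map_mul, map_inv, map_inv, hφz, hxx, h2.eq]
        group
    have h7 : (x * y * x⁻¹ * y⁻¹) * x = x * (x * y * x⁻¹ * y⁻¹) := by
      rw [mul_inv_eq_one, mul_inv_eq_iff_eq_mul] at h6
      exact h6
    exact congrArg (fun z : H => (z : G)) h7
  · have h6 : (x * y * x⁻¹ * y⁻¹) * y * (x * y * x⁻¹ * y⁻¹)⁻¹ * y⁻¹ = 1 := by
      apply key
      · exact E.mul_mem (E.mul_mem (E.mul_mem hz hy) (E.inv_mem hz)) (E.inv_mem hy)
      · rw [map_mul, map_mul, map_mul, map_inv, map_inv, hφz, hyy, h3.eq]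
        group
    have h7 : (x * y * x⁻¹ * y⁻¹) * y = y * (x * y * x⁻¹ * y⁻¹) := by
      rw [mul_inv_eq_one, mul_inv_eq_iff_eq_mul] at h6
      exact h6
    exact congrArg (fun z : H => (z : G)) h7
  · have h6 : (x * y * x⁻¹ * y⁻¹) ^ p = 1 := by
      apply key
      · exact E.pow_mem hz p
      · rw [map_pow, hφz, h4]
    have h8 := congrArg (fun z : H => (z : G)) h6
    simpa using h8

/-- The number of cycles of the image of the central commutator is divisible by `p`. -/
theorem dvd_cycles {p : ℕ} [Fact p.Prime] {x y : G}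
    (hP : IsPGroup p (Subgroup.closure ({x, y} : Set G)))
    (hcx : Commute (x * y * x⁻¹ * y⁻¹) x) (hcy : Commute (x * y * x⁻¹ * y⁻¹) y)
    {H : Subgroup G} {n : ℕ} (φ : H →* Perm (Fin n)) (hx : x ∈ H) (hy : y ∈ H)
    (hz : x * y * x⁻¹ * y⁻¹ ∈ H) :
    p ∣ Nat.card (φ ⟨x * y * x⁻¹ * y⁻¹, hz⟩).cycleFactorsFinset := by
  classical
  set z := x * y * x⁻¹ * y⁻¹ with hzdef
  let P : Subgroup H := (Subgroup.closure ({x, y} : Set G)).subgroupOf H
  have hPp : IsPGroup p P := hP.comap_subtype
  have hcomm : ∀ g ∈ Subgroup.closure ({x, y} : Set G), Commute g z := by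
    intro g hg
    have : Subgroup.closure ({x, y} : Set G) ≤ Subgroup.centralizer {z} := by
      rw [Subgroup.closure_le]
      rintro g (rfl | rfl)
      · rw [SetLike.mem_coe, Subgroup.mem_centralizer_singleton_iff]; exact hcx.symm.eq
      · rw [SetLike.mem_coe, Subgroup.mem_centralizer_singleton_iff]; exact hcy.symm.eq
    have h1 := this hg
    rw [Subgroup.mem_centralizer_singleton_iff] at h1
    exact h1
  refine dvd_card_cycles (x := φ ⟨x, hx⟩) (y := φ ⟨y, hy⟩) (P.map φ) (hPp.map φ) ?_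
    ⟨⟨x, hx⟩, Subgroup.subset_closure (by simp), rfl⟩
    ⟨⟨y, hy⟩, Subgroup.subset_closure (by simp), rfl⟩ ?_
  · rintro _ ⟨g, hg, rfl⟩
    have h1 : Commute g ⟨z, hz⟩ := by
      apply Subtype.ext
      exact (hcomm g hg).eq
    exact h1.map φ
  · rw [← map_mul, ← map_inv, ← map_mul, ← map_inv, ← map_mul]
    rfl

/-- The number of moved points of a permutation of prime order. -/
theorem card_support_eq {Ω : Type*} [Fintype Ω] [DecidableEq Ω] {σ : Perm Ω} {p : ℕ}
    (hp : p.Prime) (hσ : orderOf σ = p) :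
    σ.support.card = Nat.card σ.cycleFactorsFinset * p := by
  rw [← sum_cycleType, cycleType_def]
  have h1 : (Multiset.map (Finset.card ∘ support) σ.cycleFactorsFinset.val)
      = Multiset.map (fun _ => p) σ.cycleFactorsFinset.val := by
    apply Multiset.map_congr rfl
    intro c hc
    exact card_support_cycle hp hσ hc
  rw [h1, Multiset.map_const', Multiset.sum_replicate, smul_eq_mul]
  simp

/-- An even permutation fixing the moved points of `σ`, of `p`-power order not dividing `B`. -/
theorem exists_cycle {p : ℕ} (hp : p.Prime) {n : ℕ} {σ : Perm (Fin n)} {s : ℕ}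
    (hs : p ^ s ≤ Nat.card {x : Fin n // σ x = x}) (hs1 : 1 ≤ s) :
    ∃ c : Perm (Fin n), orderOf c = p ^ s ∧ Commute c σ := by
  classical
  have h1 : Fintype.card (Fin (p ^ s)) ≤ Fintype.card {x : Fin n // σ x = x} := by
    rw [Fintype.card_fin, ← Nat.card_eq_fintype_card]
    exact hs
  obtain ⟨e⟩ := Function.Embedding.nonempty_of_card_le h1
  have hps : 2 ≤ p ^ s := le_trans hp.two_le (Nat.le_self_pow (by omega) p)
  obtain ⟨k, hk⟩ : ∃ k, p ^ s = k + 2 := ⟨p ^ s - 2, by omega⟩
  let e' : Fin (p ^ s) → Fin n := fun i => (e i : Fin n)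
  have he' : Function.Injective e' := fun i j hij => e.injective (Subtype.ext hij)
  let f : Fin (p ^ s) ≃ Set.range e' := Equiv.ofInjective e' he'
  let c : Perm (Fin n) := extendDomain (finRotate (p ^ s)) f
  refine ⟨c, ?_, ?_⟩
  · have h2 : orderOf c = orderOf (finRotate (p ^ s)) :=
      orderOf_injective (extendDomainHom f) (extendDomainHom_injective f) _
    rw [h2, hk, (isCycle_finRotate).orderOf, support_finRotate, Finset.card_univ,
      Fintype.card_fin]
  · ext x
    simp only [Perm.mul_apply]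
    by_cases hx : x ∈ Set.range e'
    · obtain ⟨i, rfl⟩ := hx
      have h3 : σ (e' i) = e' i := (e i).2
      rw [h3]
      have h4 : c (e' i) = e' (finRotate (p ^ s) i) := by
        have := extendDomain_apply_image (finRotate (p ^ s)) f i
        simpa [f] using this
      rw [h4]
      exact congrArg _ (e _).2.symm
    · have h3 : c x = x := extendDomain_apply_not_subtype _ _ hx
      rw [h3]
      by_cases hσx : σ x ∈ Set.range e'
      · exfalso
        obtain ⟨i, hi⟩ := hσx
        have h4 : σ (e' i) = e' i := (e i).2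
        rw [hi] at h4
        have h5 := σ.injective h4
        exact hx ⟨i, hi.trans h5⟩
      · rw [extendDomain_apply_not_subtype _ _ hσx]

/-- A high power of a permutation commuting with `σ` fixes all moved points of `σ`. -/
theorem pow_fixes {Ω : Type*} [Fintype Ω] [DecidableEq Ω] {σ q : Perm Ω} (hq : Commute q σ)
    {K : ℕ} (hK : σ.support.card ≤ K) (a : Ω) (ha : σ a ≠ a) :
    (q ^ K.factorial) a = a := by
  classical
  have hinv : ∀ x, σ (q x) ≠ q x ↔ σ x ≠ x := by
    intro x
    have h1 : σ (q x) = q (σ x) := by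
      have := congrArg (fun f : Perm Ω => f x) hq.eq
      simpa only [Perm.mul_apply] using this.symm
    rw [h1]
    exact q.injective.ne_iff
  let r : Perm {x : Ω // σ x ≠ x} := Perm.subtypePerm (p := fun x => σ x ≠ x) q hinv
  have hcard : Fintype.card (Perm {x : Ω // σ x ≠ x}) = (σ.support.card).factorial := by
    rw [Fintype.card_perm]
    congr 1
    rw [Fintype.card_subtype]
    congr 1
  have h2 : r ^ K.factorial = 1 := by
    rw [← orderOf_dvd_iff_pow_eq_one]
    refine (orderOf_dvd_card).trans ?_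
    rw [hcard]
    exact Nat.factorial_dvd_factorial hK
  have h3 := congrArg (fun f : Perm {x : Ω // σ x ≠ x} => (f ⟨a, ha⟩ : Ω)) h2
  have h4 : ∀ (k : ℕ), ((r ^ k) ⟨a, ha⟩ : Ω) = (q ^ k) a := by
    intro k
    rw [Perm.subtypePerm_pow]
    rfl
  simp only [h4] at h3
  simpa using h3

theorem card_fixed_add {Ω : Type*} [Fintype Ω] [DecidableEq Ω] (σ : Perm Ω) :
    Nat.card {x : Ω // σ x = x} + σ.support.card = Fintype.card Ω := by
  classical
  rw [Nat.card_eq_fintype_card, Fintype.card_subtype]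
  have h1 : σ.support = Finset.univ.filter (fun x => ¬ σ x = x) := by
    ext x; simp
  rw [h1]
  exact Finset.card_filter_add_card_filter_not (s := Finset.univ) (fun x => σ x = x)

/-- Main theorem, in terms of homomorphisms. -/
theorem main {p : ℕ} (hp : p.Prime) (hG : Infinite G) (hc : Cover p G) :
    ∃ K : Subgroup G, K ≠ ⊤ ∧ ∃ k : K, k ≠ 1 ∧
      ∀ N : Subgroup K, N.Normal → N.FiniteIndex → k ∈ N := by
  classical
  have : Fact p.Prime := ⟨hp⟩
  obtain ⟨x, y, hP, hz1, hcx, hcy, hzp⟩ := exists_xyz (p := p) hG hc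
  set z := x * y * x⁻¹ * y⁻¹ with hz
  refine ⟨Subgroup.centralizer {z}, ?_, ?_⟩
  · -- not central
    intro htop
    obtain ⟨H, n, φ, hgood, hn⟩ := hc.big hG {z} 4
    have hzH : z ∈ H := hgood.mem z (by simp)
    have h1 : φ ⟨z, hzH⟩ ∈ alternatingGroup (Fin n) := by
      rw [← hgood.range]; exact ⟨_, rfl⟩
    have h2 : (⟨φ ⟨z, hzH⟩, h1⟩ : alternatingGroup (Fin n)) ∈
        Subgroup.center (alternatingGroup (Fin n)) := by
      rw [Subgroup.mem_center_iff]
      rintro ⟨k, hk⟩
      apply Subtype.ext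
      change k * φ ⟨z, hzH⟩ = φ ⟨z, hzH⟩ * k
      have hk' : k ∈ φ.range := by rw [hgood.range]; exact hk
      obtain ⟨h, rfl⟩ := hk'
      rw [← map_mul, ← map_mul]
      congr 1
      apply Subtype.ext
      have h3 : (h : G) ∈ Subgroup.centralizer {z} := by rw [htop]; trivial
      rw [Subgroup.mem_centralizer_singleton_iff] at h3
      exact h3
    rw [alternatingGroup.center_eq_bot (by simpa using hn), Subgroup.mem_bot] at h2
    have h4 : φ ⟨z, hzH⟩ = 1 := congrArg Subtype.val h2
    have h5 := hgood.inj ⟨z, hzH⟩ (by simp) h4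
    exact hz1 (congrArg (fun w : H => (w : G)) h5)
  -- order of the image of z
  have hord : ∀ {F : Finset G} {H : Subgroup G} {n : ℕ} {φ : H →* Perm (Fin n)}
      (_ : Good p F H n φ) (_ : z ∈ F) (hzH : z ∈ H), orderOf (φ ⟨z, hzH⟩) = p := by
    intro F H n φ hgood hzF hzH
    refine orderOf_eq_prime ?_ ?_
    · rw [← map_pow]
      have : (⟨z, hzH⟩ : H) ^ p = 1 := by
        apply Subtype.ext
        simpa using hzp
      rw [this, map_one]
    · intro h
      have h5 := hgood.inj ⟨z, hzH⟩ hzF h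
      exact hz1 (congrArg (fun w : H => (w : G)) h5)
  by_cases hcase : ∀ m : ℕ, ∃ (H : Subgroup G) (n : ℕ) (φ : H →* Perm (Fin n))
      (_ : Good p {x, y, z} H n φ) (hzH : z ∈ H),
      m < Nat.card (φ ⟨z, hzH⟩).cycleFactorsFinset
  · -- many cycles
    have hzC : z ∈ Subgroup.centralizer {z} := by
      rw [Subgroup.mem_centralizer_singleton_iff]
    refine ⟨⟨z, hzC⟩, ?_, ?_⟩
    · intro h
      exact hz1 (congrArg Subtype.val h)
    · intro N hN hNf
      obtain ⟨H, n, φ, hgood, hzH, hm⟩ := hcase (max N.index 4)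
      have hx : x ∈ H := hgood.mem x (by simp)
      have hy : y ∈ H := hgood.mem y (by simp)
      refine mem_of_Nbar (a := 1) hgood N hN (v := ⟨z, hzC⟩) hzH ?_ ?_
      · apply Subtype.ext
        simpa using hzp
      · refine mem_of_index hp (hord hgood (by simp) hzH) (Nbar φ N) ?_ ?_ ?_ ?_
        · intro k hk hkz m hm
          exact Nbar_conj hgood hzH hzp N hN k hk hkz m hm
        · intro f hf
          exact Nbar_pigeon hgood hzH hzp N (lt_of_le_of_lt (le_max_left _ _) hm)
            hNf.index_ne_zero f hf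
        · exact (lt_of_le_of_lt (le_max_right _ _) hm).le
        · exact dvd_cycles hP hcx hcy φ hx hy hzH
  · -- boundedly many cycles
    push Not at hcase
    obtain ⟨m₀, hm₀⟩ := hcase
    set K := m₀ * p with hK
    have hsupp : ∀ {F : Finset G} {H : Subgroup G} {n : ℕ} {φ : H →* Perm (Fin n)}
        (_ : Good p F H n φ) (_ : {x, y, z} ⊆ F) (hzH : z ∈ H),
        (φ ⟨z, hzH⟩).support.card ≤ K := by
      intro F H n φ hgood hF hzH
      rw [card_support_eq hp (hord hgood (hF (by simp)) hzH), hK]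
      exact Nat.mul_le_mul_right p (hm₀ H n φ (hgood.mono hF) hzH)
    -- choose s with p ^ s > 2 K!
    obtain ⟨s, hs⟩ : ∃ s, 2 * K.factorial < p ^ s :=
      ⟨2 * K.factorial, Nat.lt_pow_self hp.one_lt⟩
    have hs1 : 1 ≤ s := by
      rcases Nat.eq_zero_or_pos s with h | h
      · rw [h, pow_zero] at hs
        have := K.factorial_pos
        omega
      · exact h
    obtain ⟨H, n, φ, hgood, hn⟩ := hc.big hG {x, y, z} (K + p ^ s)
    have := hgood.fin
    have hzH : z ∈ H := hgood.mem z (by simp)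
    have hfix := card_fixed_add (φ ⟨z, hzH⟩)
    rw [Fintype.card_fin] at hfix
    have hsup1 := hsupp hgood (Finset.Subset.refl _) hzH
    obtain ⟨c, hcord, hccom⟩ := exists_cycle hp (σ := φ ⟨z, hzH⟩) (s := s) (by omega) hs1
    obtain ⟨h, hh, hhC⟩ := lift_even hgood hzH hzp (k := c * c) (by
      rw [Perm.sign_mul]
      rcases Int.units_eq_one_or (sign c) with h | h <;> rw [h] <;> simp)
      (hccom.mul_left hccom)
    -- the p-part of h
    have hord_pos : orderOf h ≠ 0 := (orderOf_pos h).ne'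
    obtain ⟨a, t, hnt, hat⟩ := Nat.exists_eq_pow_mul_and_not_dvd hord_pos p hp.ne_one
    set g : H := h ^ t with hg
    have hgp : g ^ p ^ a = 1 := by
      rw [hg, ← pow_mul, mul_comm, ← hat, pow_orderOf_eq_one]
    have hφw : φ (g ^ K.factorial) ≠ 1 := by
      intro h1
      rw [hg, ← pow_mul, map_pow, hh, ← pow_two, ← pow_mul] at h1
      have h2 : orderOf c ∣ 2 * (t * K.factorial) := orderOf_dvd_of_pow_eq_one h1
      rw [hcord] at h2
      have h3 : p ^ s ∣ (2 * K.factorial) * t := by
        have : 2 * (t * K.factorial) = (2 * K.factorial) * t := by ring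
        rwa [this] at h2
      have h4 : Nat.Coprime (p ^ s) t :=
        Nat.Coprime.pow_left _ ((Nat.Prime.coprime_iff_not_dvd hp).mpr hnt)
      have h5 := Nat.le_of_dvd (by have := K.factorial_pos; omega)
        (h4.dvd_of_dvd_mul_right h3)
      omega
    have hgC : (g : G) ∈ Subgroup.centralizer {z} := by
      rw [hg, Subgroup.coe_pow]
      exact Subgroup.pow_mem _ hhC t
    let g' : Subgroup.centralizer {z} := ⟨g, hgC⟩
    refine ⟨g' ^ K.factorial, ?_, ?_⟩
    · intro h1
      apply hφw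
      have h2 : g ^ K.factorial = 1 := by
        apply Subtype.ext
        have := congrArg Subtype.val h1
        simpa [g'] using this
      rw [h2, map_one]
    · intro N hN hNf
      obtain ⟨H', n', φ', hgood', hn'⟩ :=
        hc.big hG (insert (g : G) {x, y, z}) (K + (N.index + 5))
      have hz' : z ∈ H' := hgood'.mem z (by simp)
      have hg'' : (g : G) ∈ H' := hgood'.mem g (by simp)
      have hwH : ((g' ^ K.factorial : Subgroup.centralizer {z}) : G) ∈ H' := by
        rw [Subgroup.coe_pow]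
        exact H'.pow_mem hg'' _
      have hfix' := card_fixed_add (φ' ⟨z, hz'⟩)
      rw [Fintype.card_fin] at hfix'
      have hsup2 := hsupp hgood' (Finset.subset_insert _ _) hz'
      refine mem_of_Nbar (a := a) hgood' N hN (v := g' ^ K.factorial) hwH ?_ ?_
      · apply Subtype.ext
        have h1 := congrArg (fun w : H => (w : G)) hgp
        have h2 : (g : G) ^ p ^ a = 1 := by simpa using h1
        change ((g : G) ^ K.factorial) ^ p ^ a = 1
        rw [← pow_mul, mul_comm, pow_mul, h2, one_pow]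
      · have hpw : φ' ⟨((g' ^ K.factorial : Subgroup.centralizer {z}) : G), hwH⟩
            = (φ' ⟨g, hg''⟩) ^ K.factorial := by
          rw [← map_pow]
          congr 1
        have hcom' : Commute (φ' ⟨g, hg''⟩) (φ' ⟨z, hz'⟩) := by
          have h1 : Commute (⟨g, hg''⟩ : H') ⟨z, hz'⟩ := by
            apply Subtype.ext
            have h2 := hgC
            rw [Subgroup.mem_centralizer_singleton_iff] at h2
            exact h2
          exact h1.map φ'
        refine mem_of_fix (σ := φ' ⟨z, hz'⟩) (Nbar φ' N) ?_ N.index ?_ (by omega) ?_ ?_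
        · intro k hk hkz m hm
          exact Nbar_conj hgood' hz' hzp N hN k hk hkz m hm
        · intro f hf
          exact Nbar_pigeon hgood' hz' hzp N (by simp) hNf.index_ne_zero f hf
        · have h1 : φ' ⟨((g' ^ K.factorial : Subgroup.centralizer {z}) : G), hwH⟩ ∈ φ'.range :=
            ⟨_, rfl⟩
          rw [hgood'.range] at h1
          exact mem_alternatingGroup.mp h1
        · intro b hb
          rw [hpw]
          exact pow_fixes hcom' hsup2 b hb

end Pool.Agent.CbfAlt
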